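import Mathlib
import Pool.Agent.helper81.DI.SpecB

/-!
Project di (MP_baa4d7_al), module B11: central characters, `φ` over `ψ`.
-/

set_option autoImplicit false

namespace Pool.Agent.DI

open Pool.Agent.helper58.DC

section B11

variable {Γ : Type} [Group Γ]

theorem B11_funMap (n : Γ) (ψ : Γ → ℂ) (x : Γ) :
    funMap (MulAut.conj n) ψ x = ψ (n⁻¹ * x * n) := by
  unfold funMap
  rw [← map_inv, MulAut.conj_apply, inv_inv]

/-- the sum over a conjugacy class is invariant under conjugation of the function -/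
theorem B11_sum (n : Γ) (ψ : Γ → ℂ) (g : Γ) :
    ∑ᶠ x ∈ conjugatesOf g, funMap (MulAut.conj n) ψ x = ∑ᶠ x ∈ conjugatesOf g, ψ x := by
  refine finsum_mem_eq_of_bijOn (fun x => n⁻¹ * x * n) ⟨?_, ?_, ?_⟩ ?_
  · intro x hx
    have h1 : IsConj g x := hx
    have h2 : IsConj x (n⁻¹ * x * n) := isConj_iff.2 ⟨n⁻¹, by rw [inv_inv]⟩
    exact h1.trans h2
  · intro x _ y _ h
    have h' : n⁻¹ * x * n = n⁻¹ * y * n := h
    exact mul_left_cancel (mul_right_cancel h')
  · intro y hy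
    have h1 : IsConj g y := hy
    have h2 : IsConj y (n * y * n⁻¹) := isConj_iff.2 ⟨n, rfl⟩
    refine ⟨n * y * n⁻¹, h1.trans h2, ?_⟩
    show n⁻¹ * (n * y * n⁻¹) * n = y
    group
  · intro x _
    exact B11_funMap n ψ x

end B11

theorem B11 : B11_stmt := by
  classical
  intro Γ _ _ G' N hG' φ hφ ψ hψ hover g hg
  set S : Set (Γ → ℂ) := {ψ' : Γ → ℂ | ∃ n ∈ N, ψ' = funMap (MulAut.conj n) ψ} with hS
  have hfin : S.Finite := by
    refine (Set.finite_range fun n : Γ => funMap (MulAut.conj n) ψ).subset ?_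
    rintro ψ' ⟨n, _, rfl⟩
    exact ⟨n, rfl⟩
  have hone : ψ ∈ S := by
    refine ⟨1, N.one_mem, ?_⟩
    funext x
    rw [B11_funMap]
    simp
  have hall : ∀ x ∈ G', φ x = ∑ᶠ ψ' ∈ S, ψ' x := by
    intro x hx
    by_cases hxN : x ∈ N
    · exact hover x ⟨hxN, hx⟩
    · rw [hφ.1 x hxN]
      symm
      refine finsum_mem_eq_zero_of_forall_eq_zero ?_
      rintro ψ' ⟨n, hn, rfl⟩
      rw [B11_funMap]
      apply hψ.1
      intro h
      apply hxN
      have h1 : n * (n⁻¹ * x * n) * n⁻¹ ∈ N := N.mul_mem (N.mul_mem hn h.1) (N.inv_mem hn)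
      have h2 : n * (n⁻¹ * x * n) * n⁻¹ = x := by group
      rwa [h2] at h1
  have hcls : (conjugatesOf g).Finite := Set.toFinite _
  have hsub : ∀ x ∈ conjugatesOf g, x ∈ G' := by
    intro x hx
    obtain ⟨c, rfl⟩ := isConj_iff.1 (show IsConj g x from hx)
    exact hG'.conj_mem g hg c
  have hnum : ∑ᶠ x ∈ conjugatesOf g, φ x =
      (hfin.toFinset.card : ℂ) * ∑ᶠ x ∈ conjugatesOf g, ψ x := by
    rw [finsum_mem_congr rfl fun x hx => hall x (hsub x hx),
      finsum_mem_comm (fun x (ψ' : Γ → ℂ) => ψ' x) hcls hfin]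
    rw [finsum_mem_congr (g := fun _ => ∑ᶠ x ∈ conjugatesOf g, ψ x) rfl ?_]
    · rw [finsum_mem_eq_finite_toFinset_sum _ hfin, Finset.sum_const, nsmul_eq_mul]
    · rintro ψ' ⟨n, _, rfl⟩
      exact B11_sum n ψ g
  have hden : φ 1 = (hfin.toFinset.card : ℂ) * ψ 1 := by
    rw [hall 1 G'.one_mem]
    rw [finsum_mem_congr (g := fun _ => ψ 1) rfl ?_]
    · rw [finsum_mem_eq_finite_toFinset_sum _ hfin, Finset.sum_const, nsmul_eq_mul]
    · rintro ψ' ⟨n, _, rfl⟩
      rw [B11_funMap]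
      simp
  have hcard : (hfin.toFinset.card : ℂ) ≠ 0 := by
    have h1 : 0 < hfin.toFinset.card := Finset.card_pos.2 ⟨ψ, hfin.mem_toFinset.2 hone⟩
    exact_mod_cast h1.ne'
  unfold omega
  rw [hnum, hden, mul_div_mul_left _ _ hcard]

end Pool.Agent.DI
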