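import Mathlib
import Pool.Agent.helper81.DI.SpecD
import Pool.Agent.helper48.DC.CL1

/-!
Project di (MP_baa4d7_al), module D1: the alternating sum as a weighted sum over all radical chains.
-/

set_option autoImplicit false

namespace Pool.Agent.DI

open Pool.Agent.helper58.DC

section D1

variable {G E A : Type} [Group G] [Group E] [Group A] [Finite G]

/-- the action by conjugation on sets of subgroups -/
@[reducible] noncomputable def D1_act (hNM : NM_stmt) : MulAction G (Finset (Subgroup G)) where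
  smul g C := chainMap (MulAut.conj g) C
  one_smul C := by
    show chainMap (MulAut.conj (1 : G)) C = C
    rw [map_one]
    exact (hNM G 1 C).2.2.2.2.2.1
  mul_smul g h C := by
    show chainMap (MulAut.conj (g * h)) C = chainMap (MulAut.conj g) (chainMap (MulAut.conj h) C)
    rw [map_mul]
    exact (hNM G (MulAut.conj g) C).2.2.2.2.1 _

/-- the number of conjugates of a chain -/
theorem D1_card (hNM : NM_stmt) (hSN : SN_stmt) (C : Finset (Subgroup G))
    (hC : IsChain (· ≤ ·) (C : Set (Subgroup G))) :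
    ({D : Finset (Subgroup G) | ∃ g : G, chainMap (MulAut.conj g) C = D}).ncard *
      Nat.card (nrm C) = Nat.card G := by
  let _ := D1_act (G := G) hNM
  have h1 : MulAction.stabilizer G C = nrm C := by
    ext g
    rw [MulAction.mem_stabilizer_iff]
    exact hSN G C hC g
  have h2 : {D : Finset (Subgroup G) | ∃ g : G, chainMap (MulAut.conj g) C = D} =
      MulAction.orbit G C := rfl
  rw [h2, ← MulAction.index_stabilizer, h1, Subgroup.index_mul_card]

omit [Finite G] in
theorem D1_omega (ψ : G → ℂ) (g x : G) : omega ψ (g * x * g⁻¹) = omega ψ x := by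
  have h : conjugatesOf (g * x * g⁻¹) = conjugatesOf x := by
    rw [isConj_iff_conjugatesOf_eq.1]
    exact (isConj_iff.2 ⟨g, rfl⟩).symm
  unfold omega
  rw [h]

theorem D1_stab (hNM : NM_stmt) (X : Extension G E A) (C : Finset (Subgroup G)) (ψ : G → ℂ)
    (g : G) (e : E) (he : e ∈ X.stab C ψ) :
    X.inc g * e * (X.inc g)⁻¹ ∈ X.stab (chainMap (MulAut.conj g) C)
      (funMap (MulAut.conj g) ψ) := by
  have hinc : X.act (X.inc g) = MulAut.conj g := Pool.Agent.helper48.DC.CL1_act_inc X g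
  have hcm : ∀ (α β : MulAut G) (C : Finset (Subgroup G)),
      chainMap (α * β) C = chainMap α (chainMap β C) := fun α β C => (hNM G α C).2.2.2.2.1 β
  have hfm : ∀ (α β : MulAut G) (ψ : G → ℂ), funMap (α * β) ψ = funMap α (funMap β ψ) := by
    intro α β ψ
    funext x
    simp [funMap, mul_inv_rev]
  have h1 : X.act (X.inc g * e * (X.inc g)⁻¹) * MulAut.conj g = MulAut.conj g * X.act e := by
    rw [map_mul, map_mul, map_inv, hinc, inv_mul_cancel_right]
  refine ⟨?_, ?_⟩
  · rw [← hcm, h1, hcm, he.1]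
  · rw [← hfm, h1, hfm, he.2]

theorem D1_map_le (hNM : NM_stmt) (X : Extension G E A) (C : Finset (Subgroup G)) (ψ : G → ℂ)
    (g : G) : (X.stab C ψ).map X.proj ≤ (X.stab (chainMap (MulAut.conj g) C)
      (funMap (MulAut.conj g) ψ)).map X.proj := by
  rintro a ⟨e, he, rfl⟩
  refine ⟨_, D1_stab hNM X C ψ g e he, ?_⟩
  have h1 : X.proj (X.inc g) = 1 := (X.exact _).2 ⟨g, rfl⟩
  rw [map_mul, map_mul, map_inv, h1, one_mul, inv_one, mul_one]

theorem D1_back (hNM : NM_stmt) (C : Finset (Subgroup G)) (g : G) :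
    chainMap (MulAut.conj g⁻¹) (chainMap (MulAut.conj g) C) = C := by
  rw [← (hNM G (MulAut.conj g⁻¹) C).2.2.2.2.1, ← map_mul, inv_mul_cancel, map_one]
  exact (hNM G 1 C).2.2.2.2.2.1

omit [Finite G] in
theorem D1_backF (ψ : G → ℂ) (g : G) :
    funMap (MulAut.conj g⁻¹) (funMap (MulAut.conj g) ψ) = ψ := by
  funext x
  simp [funMap, mul_assoc]

theorem D1_map_eq (hNM : NM_stmt) (X : Extension G E A) (C : Finset (Subgroup G)) (ψ : G → ℂ)
    (g : G) : (X.stab (chainMap (MulAut.conj g) C) (funMap (MulAut.conj g) ψ)).map X.proj =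
      (X.stab C ψ).map X.proj := by
  refine le_antisymm ?_ (D1_map_le hNM X C ψ g)
  have h := D1_map_le hNM X (chainMap (MulAut.conj g) C) (funMap (MulAut.conj g) ψ) g⁻¹
  rwa [D1_back hNM, D1_backF] at h

theorem D1_kC_le (hNM : NM_stmt) (hIF : IF_stmt) (hOM : OM_stmt) (X : Extension G E A) (p : ℕ)
    (M : Ideal (integralClosure ℤ ℂ)) (χ : G → ℂ) (d : ℤ) (U : Subgroup A)
    (C : Finset (Subgroup G)) (g : G) :
    kC X p M χ d U C ≤ kC X p M χ d U (chainMap (MulAut.conj g) C) := by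
  have hfin : Finite {ψ : G → ℂ // ψ ∈ IrrOn (nrm (chainMap (MulAut.conj g) C)) ∧
      Defect p (nrm (chainMap (MulAut.conj g) C)) ψ d ∧ Induces M ψ χ ∧
      (X.stab (chainMap (MulAut.conj g) C) ψ).map X.proj = U} := by
    have h1 : (IrrOn (nrm (chainMap (MulAut.conj g) C))).Finite :=
      (hIF G (nrm (chainMap (MulAut.conj g) C))).1
    exact (h1.subset (fun ψ (hψ : ψ ∈ {ψ : G → ℂ | ψ ∈ IrrOn (nrm (chainMap (MulAut.conj g) C)) ∧
      Defect p (nrm (chainMap (MulAut.conj g) C)) ψ d ∧ Induces M ψ χ ∧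
      (X.stab (chainMap (MulAut.conj g) C) ψ).map X.proj = U}) => hψ.1)).to_subtype
  have hn : nrm (chainMap (MulAut.conj g) C) = (nrm C).map (MulAut.conj g).toMonoidHom :=
    (hNM G (MulAut.conj g) C).2.2.2.1
  unfold kC
  refine Nat.card_le_card_of_injective (fun ψ => ⟨funMap (MulAut.conj g) ψ.1, ?_, ?_, ?_, ?_⟩) ?_
  · rw [hn]
    exact ((hIF G (nrm C)).2 ψ.1 ψ.2.1).2.2 _
  · obtain ⟨n, h1, h2⟩ := ψ.2.2.1
    refine ⟨n, ?_, ?_⟩
    · rw [← h1]
      simp [funMap]
    · rw [h2, hn]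
      congr 2
      exact congrArg (padicValNat p) (Nat.card_congr ((nrm C).equivMapOfInjective _
        (MulAut.conj g).injective).toEquiv)
  · intro y
    obtain ⟨a, ha, h⟩ := ψ.2.2.2.1 y
    refine ⟨a, ha, ?_⟩
    rw [← h]
    congr 1
    have h1 := hOM G (MulAut.conj g) ψ.1 (g⁻¹ * y * g)
    have h2 : (MulAut.conj g) (g⁻¹ * y * g) = y := by
      rw [MulAut.conj_apply]
      group
    rw [h2] at h1
    rw [h1]
    have h3 := D1_omega ψ.1 g⁻¹ y
    rwa [inv_inv] at h3
  · rw [D1_map_eq hNM]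
    exact ψ.2.2.2.2
  · intro ψ φ h
    have h1 : funMap (MulAut.conj g) ψ.1 = funMap (MulAut.conj g) φ.1 := congrArg Subtype.val h
    apply Subtype.ext
    rw [← D1_backF ψ.1 g, h1, D1_backF]

theorem D1_kC (hNM : NM_stmt) (hIF : IF_stmt) (hOM : OM_stmt) (X : Extension G E A) (p : ℕ)
    (M : Ideal (integralClosure ℤ ℂ)) (χ : G → ℂ) (d : ℤ) (U : Subgroup A)
    (C : Finset (Subgroup G)) (g : G) :
    kC X p M χ d U (chainMap (MulAut.conj g) C) = kC X p M χ d U C := by
  refine le_antisymm ?_ (D1_kC_le hNM hIF hOM X p M χ d U C g)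
  have h := D1_kC_le hNM hIF hOM X p M χ d U (chainMap (MulAut.conj g) C) g⁻¹
  rwa [D1_back hNM] at h

end D1

theorem D1 (hNM : NM_stmt) (hSN : SN_stmt) (hIF : IF_stmt) (hOM : OM_stmt) : D1_stmt := by
  classical
  intro G E A _ _ _ _ X p M χ _ d U
  let F : {C : Finset (Subgroup G) // IsRadical p C} → ℤ := fun C =>
    (-1) ^ (C.1.card + 1) * ((Nat.card (nrm C.1) : ℤ) * kC X p M χ d U C.1)
  have e1 : ∑ᶠ C ∈ {C : Finset (Subgroup G) | IsRadical p C},
      (-1) ^ (C.card + 1) * ((Nat.card (nrm C) : ℤ) * kC X p M χ d U C) = ∑ᶠ C, F C :=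
    (finsum_set_coe_eq_finsum_mem {C : Finset (Subgroup G) | IsRadical p C}
      (f := fun C => (-1) ^ (C.card + 1) * ((Nat.card (nrm C) : ℤ) * kC X p M χ d U C))).symm
  rw [e1]
  have : Fintype {C : Finset (Subgroup G) // IsRadical p C} := Fintype.ofFinite _
  have : Fintype (Quot (chainRel (G := G) p)) := Fintype.ofFinite _
  rw [finsum_eq_sum_of_fintype, ← Fintype.sum_fiberwise (Quot.mk (chainRel (G := G) p)) F]
  unfold altSum
  rw [finsum_eq_sum_of_fintype, Finset.mul_sum]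
  refine Finset.sum_congr rfl fun c _ => ?_
  -- the function is constant on the fibre
  have e2 : ∀ C : {C : {C : Finset (Subgroup G) // IsRadical p C} //
      Quot.mk (chainRel (G := G) p) C = c}, F C.1 = F c.out := by
    rintro ⟨C, hC⟩
    obtain ⟨g, hg⟩ := Pool.Agent.helper48.DC.CL1_rel_of_mk hNM p c.out C
      ((Quot.out_eq c).trans hC.symm)
    show (-1) ^ (C.1.card + 1) * ((Nat.card (nrm C.1) : ℤ) * kC X p M χ d U C.1) =
      (-1) ^ (c.out.1.card + 1) * ((Nat.card (nrm c.out.1) : ℤ) * kC X p M χ d U c.out.1)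
    rw [← hg, D1_kC hNM hIF hOM, (hNM G (MulAut.conj g) c.out.1).2.2.1,
      (hNM G (MulAut.conj g) c.out.1).2.2.2.1]
    have h5 : Nat.card (Subgroup.map (MulAut.conj g).toMonoidHom (nrm c.out.1)) =
        Nat.card (nrm c.out.1) :=
      (Nat.card_congr ((nrm c.out.1).equivMapOfInjective _ (MulAut.conj g).injective).toEquiv).symm
    rw [h5]
  rw [Finset.sum_congr rfl fun C _ => e2 C, Finset.sum_const, Finset.card_univ, nsmul_eq_mul]
  -- the size of the fibre
  have e3 : Fintype.card {C : {C : Finset (Subgroup G) // IsRadical p C} //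
      Quot.mk (chainRel (G := G) p) C = c} =
      ({D : Finset (Subgroup G) | ∃ g : G, chainMap (MulAut.conj g) c.out.1 = D}).ncard := by
    rw [← Nat.card_eq_fintype_card]
    refine Nat.card_congr ⟨fun C => ⟨C.1.1, ?_⟩, fun D => ⟨⟨D.1, ?_⟩, ?_⟩, fun _ => rfl,
      fun _ => rfl⟩
    · exact Pool.Agent.helper48.DC.CL1_rel_of_mk hNM p c.out C.1
        ((Quot.out_eq c).trans C.2.symm)
    · obtain ⟨g, hg⟩ := D.2
      show IsRadical p D.1
      rw [← hg]
      exact (hNM G (MulAut.conj g) c.out.1).2.2.2.2.2.2 p c.out.2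
    · obtain ⟨g, hg⟩ := D.2
      exact Eq.trans (Quot.sound (r := chainRel (G := G) p) (a := c.out) ⟨g, hg⟩).symm
        (Quot.out_eq c)
  rw [e3]
  have e4 := D1_card hNM hSN c.out.1 c.out.2.chain
  have e5 : c.out.1.card ≠ 0 := by
    obtain ⟨P₀, hP, _⟩ := c.out.2.radical
    exact (Finset.card_pos.2 ⟨P₀, hP⟩).ne'
  obtain ⟨m, hm⟩ := Nat.exists_eq_succ_of_ne_zero e5
  show _ = _ * ((-1) ^ (c.out.1.card + 1) * ((Nat.card (nrm c.out.1) : ℤ) *
    kC X p M χ d U c.out.1))
  rw [← e4, hm]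
  push_cast
  simp only [Nat.succ_eq_add_one]
  ring

end Pool.Agent.DI
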